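import Mathlib
import Pool.Agent.Work.MP_7d4bc7_co.Defs
import Pool.Agent.Work.MP_7d4bc7_co.Code
import Pool.Agent.Work.MP_7d4bc7_co.Spectrum
import Pool.Agent.Work.MP_7d4bc7_co.EdgeConn
import Pool.Agent.Work.MP_7d4bc7_co.Five

/-!
# MP_7d4bc7_co, Q1: a negative answer

The square of the cycle of length 16 is a 4-regular, 4-edge-connected Ramanujan graph `H` with
`m(H) ≤ 12 < 2 ^ 4`. Also for `d = 5` there is a Ramanujan graph `H` with `m(H) ≤ 16 < 2 ^ 5`.
-/

namespace Pool.Agent.Results.MP_7d4bc7_co.SquareCycle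

open Pool.Agent.Work.MP_7d4bc7_co

/-- The square of the 16-cycle is 4-regular and Ramanujan, is 4-edge-connected, and its largest
connectivity codes have at most `12 < 2 ^ 4` members. Two copies of `K₆` minus two disjoint edges,
joined by four edges, form a 5-regular Ramanujan graph whose largest connectivity codes have at most
`16 < 2 ^ 5` members. -/
theorem result :
    (IsRamanujan squareCycle16 4 ∧ squareCycle16.IsEdgeConnected 4 ∧
      maxCode squareCycle16 ≤ 12 ∧ 12 < 2 ^ 4) ∧
    (IsRamanujan doubleK6 5 ∧ maxCode doubleK6 ≤ 16 ∧ 16 < 2 ^ 5) :=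
  ⟨⟨isRamanujan, isEdgeConnected, maxCode_le, by norm_num⟩,
    ⟨doubleK6_ramanujan, doubleK6_maxCode, by norm_num⟩⟩

end Pool.Agent.Results.MP_7d4bc7_co.SquareCycle
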